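import Pool.Agent.MP_794e6e_pr.Paths

/-! Walks on `ℤ³` with both endpoints on the boundary of the convex hull: directional bridges and
doubling. -/

namespace Pool.Agent.ExpE

open Finset Filter
open scoped Classical
open Pool.Agent.MP_794e6e_pr

/-- all final pieces have nonnegative displacement in the direction `f` -/
def LoR (f : Pt →+ ℝ) (l : Word) : Prop := ∀ a u : Word, l = a ++ u → 0 ≤ f (D u)

/-- all nonempty initial pieces have positive displacement in the direction `f` -/
def HiR (f : Pt →+ ℝ) (l : Word) : Prop := ∀ u b : Word, l = u ++ b → u ≠ [] → 0 < f (D u)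

theorem LoR_nil (f : Pt →+ ℝ) : LoR f [] := by
  intro a u h
  have h1 := List.append_eq_nil_iff.1 h.symm
  rw [h1.2]; simp

theorem HiR_nil (f : Pt →+ ℝ) : HiR f [] := by
  intro u b h hu
  have h1 := List.append_eq_nil_iff.1 h.symm
  exact absurd h1.1 hu

theorem LoR.right {f : Pt →+ ℝ} {a b : Word} (h : LoR f (a ++ b)) : LoR f b := by
  intro c u hc
  refine h (a ++ c) u ?_
  rw [hc]; simp

theorem HiR.left {f : Pt →+ ℝ} {a b : Word} (h : HiR f (a ++ b)) : HiR f a := by
  intro u d hu hne
  refine h u (d ++ b) ?_ hne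
  rw [hu]; simp

theorem LoR.append {f : Pt →+ ℝ} {a b : Word} (ha : LoR f a) (hb : LoR f b) : LoR f (a ++ b) := by
  intro c u hcu
  rcases List.append_eq_append_iff.1 hcu with ⟨e, he1, he2⟩ | ⟨e, he1, he2⟩
  · exact hb e u he2
  · rw [he2, D_append, map_add]
    have h1 := ha c e he1
    have h2 := hb [] b (by simp)
    exact add_nonneg h1 h2

theorem HiR.append {f : Pt →+ ℝ} {a b : Word} (ha : HiR f a) (hb : HiR f b) : HiR f (a ++ b) := by
  intro u d hud hne
  rcases List.append_eq_append_iff.1 hud with ⟨e, he1, he2⟩ | ⟨e, he1, he2⟩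
  · rw [he1, D_append, map_add]
    by_cases h0 : a = []
    · subst h0
      have : e ≠ [] := by
        intro h; apply hne; rw [he1, h]; rfl
      have := hb e d he2 this
      simpa using this
    · have h1 := ha a [] (by simp) h0
      by_cases h2 : e = []
      · subst h2; simpa using h1
      · have := hb e d he2 h2
        exact add_pos h1 this
  · exact ha u e he1 hne

theorem saw_append_ofR {a b : Word} (f : Pt →+ ℝ) (ha : saw a) (hb : saw b)
    (hl : LoR f a) (hh : HiR f b) : saw (a ++ b) := by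
  intro c u d hcd hne
  rcases List.append_eq_append_iff.1 hcd with ⟨e, he1, he2⟩ | ⟨e, he1, he2⟩
  · exact hb e u d he2 hne
  · rcases List.append_eq_append_iff.1 he2 with ⟨g, hg1, hg2⟩ | ⟨g, hg1, hg2⟩
    · exact ha c u g (by rw [he1, hg1]) hne
    · by_cases h0 : g = []
      · subst h0
        rw [List.append_nil] at hg1
        exact ha c u [] (by rw [he1, hg1]; simp) hne
      · intro hcon
        have h1 := hl c e he1
        have h2 := hh g d hg2 h0
        rw [hg1, D_append] at hcon
        have h3 : f (D e + D g) = 0 := by rw [hcon, map_zero]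
        rw [map_add] at h3
        linarith

theorem rev_split {v c b : Word} (h : v.reverse = c ++ b) : v = b.reverse ++ c.reverse := by
  have := congrArg List.reverse h
  simpa using this

theorem saw_rev {w : Word} (h : saw w) : saw w.reverse := by
  intro a u b hab hne hcon
  have h1 : w = b.reverse ++ (u.reverse ++ a.reverse) := by
    have := congrArg List.reverse hab
    simpa using this
  exact h _ _ _ h1 (by simpa using hne) (by rw [D_reverse]; exact hcon)

/-- bridges in the direction `f` -/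
noncomputable def brf (f : Pt →+ ℝ) (n : ℕ) : Finset Word :=
  (wd n).filter fun w => saw w ∧ LoR f w ∧ HiR f w

theorem mem_brf {f : Pt →+ ℝ} {n : ℕ} {w : Word} :
    w ∈ brf f n ↔ w.length = n ∧ saw w ∧ LoR f w ∧ HiR f w := by
  unfold brf; rw [mem_filter, mem_wd]

theorem card_brf_add (f : Pt →+ ℝ) (m n : ℕ) :
    (brf f m).card * (brf f n).card ≤ (brf f (m + n)).card := by
  rw [← card_product]
  refine card_le_card_of_injOn (fun p => p.1 ++ p.2) ?_ ?_
  · rintro ⟨u, v⟩ h
    rw [mem_coe, mem_product, mem_brf, mem_brf] at h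
    obtain ⟨⟨h1, h2, h3, h4⟩, h5, h6, h7, h8⟩ := h
    rw [mem_coe, mem_brf, List.length_append]
    exact ⟨by omega, saw_append_ofR f h2 h6 h3 h8, h3.append h7, h4.append h8⟩
  · rintro ⟨u, v⟩ h ⟨u', v'⟩ h' heq
    rw [mem_coe, mem_product, mem_brf, mem_brf] at h h'
    simp only at heq
    obtain ⟨h1, h2⟩ := List.append_inj heq (h.1.1.trans h'.1.1.symm)
    rw [h1, h2]

theorem brf_subset_walks (f : Pt →+ ℝ) (n : ℕ) : brf f n ⊆ walks n := by
  intro w hw
  rw [mem_brf] at hw
  rw [mem_walks]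
  exact ⟨hw.1, hw.2.1⟩

theorem brf_pow (f : Pt →+ ℝ) (n k : ℕ) : (brf f n).card ^ k ≤ (brf f (k * n)).card := by
  induction k with
  | zero =>
    rw [pow_zero, zero_mul, Nat.one_le_iff_ne_zero, ← Nat.pos_iff_ne_zero, card_pos]
    exact ⟨[], mem_brf.2 ⟨rfl, saw_nil, LoR_nil f, HiR_nil f⟩⟩
  | succ k ih =>
    rw [pow_succ, Nat.succ_mul]
    exact (Nat.mul_le_mul_right _ ih).trans (card_brf_add _ _ _)

/-- a number whose powers are below the numbers of walks -/
theorem le_mu_pow {μ : ℝ}
    (ht : Tendsto (fun n : ℕ => ((walks n).card : ℝ) ^ (1 / (n : ℝ))) atTop (nhds μ)) {n b : ℕ}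
    (h : ∀ k, b ^ k ≤ (walks (k * n)).card) : (b : ℝ) ≤ μ ^ n := by
  rcases Nat.eq_zero_or_pos n with rfl | hn
  · have h1 := h 1
    rw [pow_one] at h1
    have h2 : (walks (1 * 0)).card ≤ 1 := by
      rw [card_le_one]
      intro a ha c hc
      rw [mem_walks] at ha hc
      rw [List.eq_nil_of_length_eq_zero (by omega : a.length = 0),
        List.eq_nil_of_length_eq_zero (by omega : c.length = 0)]
    rw [pow_zero]
    exact_mod_cast h1.trans h2
  · have h1 : Tendsto (fun k : ℕ => (((walks (k * n)).card : ℝ) ^ (1 / ((k * n : ℕ) : ℝ))) ^ n)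
        atTop (nhds (μ ^ n)) :=
      (ht.comp (Filter.tendsto_id.atTop_mul_const' hn)).pow n
    refine ge_of_tendsto h1 ?_
    filter_upwards [eventually_gt_atTop 0] with k hk
    have hk' : (0 : ℝ) < k := by exact_mod_cast hk
    have hn' : (0 : ℝ) < n := by exact_mod_cast hn
    have h2 : ((b : ℝ)) ^ k ≤ (walks (k * n)).card := by exact_mod_cast h k
    have h3 : (((walks (k * n)).card : ℝ) ^ (1 / ((k * n : ℕ) : ℝ))) ^ n
        = ((walks (k * n)).card : ℝ) ^ (1 / (k : ℝ)) := by
      rw [← Real.rpow_natCast, ← Real.rpow_mul (Nat.cast_nonneg _)]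
      congr 1
      push_cast
      field_simp
    rw [h3]
    calc (b : ℝ) = (((b : ℝ)) ^ k) ^ (1 / (k : ℝ)) := by
          rw [one_div, Real.pow_rpow_inv_natCast (Nat.cast_nonneg _) hk.ne']
      _ ≤ _ := Real.rpow_le_rpow (by positivity) h2 (by positivity)

theorem brf_le {μ : ℝ}
    (ht : Tendsto (fun n : ℕ => ((walks n).card : ℝ) ^ (1 / (n : ℝ))) atTop (nhds μ))
    (f : Pt →+ ℝ) (n : ℕ) : ((brf f n).card : ℝ) ≤ μ ^ n :=
  le_mu_pow ht fun k => (brf_pow f n k).trans (card_le_card (brf_subset_walks f _))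

/-- the last maximum of a real functional along a word -/
theorem exists_last_maxR (f : Pt →+ ℝ) (w : Word) : ∃ a b : Word, w = a ++ b ∧ LoR f a ∧
    HiR (-f) b := by
  induction w with
  | nil => exact ⟨[], [], rfl, LoR_nil f, HiR_nil _⟩
  | cons s w ih =>
    obtain ⟨a, b, rfl, ha, hb⟩ := ih
    by_cases h : 0 ≤ f (D (s :: a))
    · refine ⟨s :: a, b, by simp, ?_, hb⟩
      intro c e hce
      rcases List.cons_eq_append_iff.1 hce with ⟨h1, h2⟩ | ⟨c', h1, h2⟩
      · rw [h2]; exact h
      · exact ha c' e h2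
    · refine ⟨[], s :: (a ++ b), by simp, LoR_nil f, ?_⟩
      push Not at h
      intro u e hue hne
      rw [AddMonoidHom.neg_apply]
      rcases List.cons_eq_append_iff.1 hue with ⟨h1, _⟩ | ⟨c, h1, h2⟩
      · exact absurd h1 hne
      · rcases List.append_eq_append_iff.1 h2 with ⟨g, hg1, hg2⟩ | ⟨g, hg1, hg2⟩
        · rw [h1, hg1, ← List.cons_append, D_append, map_add]
          by_cases hg : g = []
          · subst hg; simpa using h
          · have := hb g e hg2 hg
            rw [AddMonoidHom.neg_apply] at this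
            linarith
        · have h3 := ha c g hg1
          have h4 : f (D (s :: a)) = f (D u) + f (D g) := by
            rw [h1, hg1, ← List.cons_append, D_append, map_add]
          linarith

/-! ### Doubling -/

/-- all initial pieces have nonnegative displacement in the direction `f` -/
def LiR (f : Pt →+ ℝ) (l : Word) : Prop := ∀ u b : Word, l = u ++ b → 0 ≤ f (D u)

theorem LiR.left {f : Pt →+ ℝ} {a b : Word} (h : LiR f (a ++ b)) : LiR f a := by
  intro u d hu
  refine h u (d ++ b) ?_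
  rw [hu]; simp

theorem HiR.toLi {f : Pt →+ ℝ} {a : Word} (h : HiR f a) : LiR f a := by
  intro u d hu
  by_cases h0 : u = []
  · rw [h0]; simp
  · exact (h u d hu h0).le

/-- weak bridges in the direction `f` -/
noncomputable def wbr (f : Pt →+ ℝ) (n : ℕ) : Finset Word :=
  (wd n).filter fun w => saw w ∧ LoR f w ∧ LiR f w

theorem mem_wbr {f : Pt →+ ℝ} {n : ℕ} {w : Word} :
    w ∈ wbr f n ↔ w.length = n ∧ saw w ∧ LoR f w ∧ LiR f w := by
  unfold wbr; rw [mem_filter, mem_wd]

theorem HiR_cons {f : Pt →+ ℝ} {e : Step} (he : 0 < f (vec e)) {w : Word} (hw : LiR f w) :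
    HiR f (e :: w) := by
  intro u d h hne
  rcases List.cons_eq_append_iff.1 h with ⟨h1, _⟩ | ⟨r, h1, h2⟩
  · exact absurd h1 hne
  · rw [h1, D_cons, map_add]
    have := hw r d h2
    linarith

theorem saw_cons {f : Pt →+ ℝ} {e : Step} (he : 0 < f (vec e)) {w : Word} (hw : LiR f w)
    (hs : saw w) : saw (e :: w) := by
  intro a u b hab hne hcon
  rcases List.cons_eq_append_iff.1 hab with ⟨_, h2⟩ | ⟨a', _, h2⟩
  · have h3 := HiR_cons he hw u b h2.symm hne
    rw [hcon, map_zero] at h3
    exact lt_irrefl _ h3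
  · exact hs a' u b h2 hne hcon

theorem card_wbr {μ : ℝ}
    (ht : Tendsto (fun n : ℕ => ((walks n).card : ℝ) ^ (1 / (n : ℝ))) atTop (nhds μ))
    {f : Pt →+ ℝ} {e : Step} (he : 0 < f (vec e)) (n : ℕ) :
    ((wbr f n).card : ℝ) ≤ μ ^ (n + 1) := by
  refine le_trans ?_ (brf_le ht f (n + 1))
  have : (wbr f n).card ≤ (brf f (n + 1)).card := by
    refine card_le_card_of_injOn (fun w => e :: w) ?_ ?_
    · intro w hw
      rw [mem_coe, mem_wbr] at hw
      obtain ⟨h1, h2, h3, h4⟩ := hw
      rw [mem_coe, mem_brf]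
      refine ⟨by simp [h1], saw_cons he h4 h2, ?_, HiR_cons he h4⟩
      intro c u h
      rcases List.cons_eq_append_iff.1 h with ⟨_, h6⟩ | ⟨r, _, h6⟩
      · rw [h6, D_cons, map_add]
        have := h4 w [] (by simp)
        linarith
      · exact h3 r u h6
    · intro w _ w' _ h
      exact (List.cons.inj h).2
  exact_mod_cast this

/-- the class up, with displacement `x` -/
noncomputable def upc (f g : Pt →+ ℝ) (e : Step) (x : Pt) (n : ℕ) : Finset Word :=
  (wd n).filter fun w => saw w ∧ LiR f w ∧ LoR g w ∧ D w = x ∧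
    ∀ a u : Word, w = a ++ u → f (D a) ≤ 2 * f x + f (vec e)

theorem mem_upc {f g : Pt →+ ℝ} {e : Step} {x : Pt} {n : ℕ} {w : Word} :
    w ∈ upc f g e x n ↔ w.length = n ∧ saw w ∧ LiR f w ∧ LoR g w ∧ D w = x ∧
      ∀ a u : Word, w = a ++ u → f (D a) ≤ 2 * f x + f (vec e) := by
  unfold upc; rw [mem_filter, mem_wd]

theorem double_mem {f g : Pt →+ ℝ} {e : Step} (he : 0 < g (vec e)) {x : Pt} {n : ℕ} {w v : Word}
    (hw : w ∈ upc f g e x n) (hv : v ∈ upc f g e x n) :
    w ++ (e :: v.reverse) ∈ wbr f (2 * n + 1) := by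
  rw [mem_upc] at hw hv
  obtain ⟨w1, w2, w3, w4, w5, w6⟩ := hw
  obtain ⟨v1, v2, v3, v4, v5, v6⟩ := hv
  -- pieces of the second part
  have hrev : ∀ r s : Word, v.reverse = r ++ s → ∃ a : Word, v = a ++ r.reverse ∧
      f (D r) = f x - f (D a) := by
    intro r s h
    have h1 := rev_split h
    refine ⟨s.reverse, h1, ?_⟩
    have h2 : f (D v) = f (D s.reverse) + f (D r.reverse) := by
      rw [← map_add, ← D_append, ← h1]
    rw [v5, D_reverse] at h2
    rw [D_reverse] at h2 ⊢
    linarith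
  have hhi2 : ∀ u d : Word, e :: v.reverse = u ++ d → 0 ≤ f x + f (D u) := by
    intro u d h
    rcases List.cons_eq_append_iff.1 h with ⟨h1, _⟩ | ⟨r, h1, h2⟩
    · rw [h1, D_nil, map_zero, add_zero, ← w5]
      exact w3 w [] (by simp)
    · obtain ⟨a, ha, hf⟩ := hrev r d h2
      have h3 := v6 a _ ha
      rw [h1, D_cons, map_add, hf]
      linarith
  have hghi : HiR g (e :: v.reverse) := by
    intro u d h hne
    rcases List.cons_eq_append_iff.1 h with ⟨h1, _⟩ | ⟨r, h1, h2⟩
    · exact absurd h1 hne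
    · have h3 := rev_split h2
      have h4 := v4 _ _ h3
      rw [D_reverse] at h4
      rw [h1, D_cons, map_add]
      linarith
  have hsaw2 : saw (e :: v.reverse) := by
    refine saw_cons he ?_ (saw_rev v2)
    intro u d h
    have h3 := rev_split h
    have h4 := v4 _ _ h3
    rwa [D_reverse] at h4
  rw [mem_wbr]
  refine ⟨?_, ?_, ?_, ?_⟩
  · simp only [List.length_append, List.length_cons, List.length_reverse, w1, v1]
    omega
  · exact saw_append_ofR g w2 hsaw2 w4 hghi
  · -- final pieces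
    have htot : f (D (e :: v.reverse)) = f (vec e) + f x := by
      rw [D_cons, map_add, D_reverse, v5]
    intro c u h
    rcases List.append_eq_append_iff.1 h with ⟨r, h1, h2⟩ | ⟨r, h1, h2⟩
    · -- c = w ++ r, e :: v.reverse = r ++ u
      rcases List.cons_eq_append_iff.1 h2 with ⟨h3, h4⟩ | ⟨s, h3, h4⟩
      · rw [h4, htot]
        have h7 := v6 v [] (by simp)
        rw [v5] at h7
        linarith
      · -- u is a final piece of v.reverse
        have h5 := rev_split h4
        have h6 := v3 _ _ h5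
        rw [D_reverse] at h6
        exact h6
    · -- w = c ++ r, u = r ++ e :: v.reverse
      rw [h2, D_append, map_add, htot]
      have h3 := w6 c r h1
      have h4 : f x = f (D c) + f (D r) := by rw [← w5, h1, D_append, map_add]
      linarith
  · -- initial pieces
    intro u d h
    rcases List.append_eq_append_iff.1 h with ⟨r, h1, h2⟩ | ⟨r, h1, h2⟩
    · rw [h1, D_append, map_add, w5]
      exact hhi2 r d h2
    · exact w3 u r h1

theorem card_upc {μ : ℝ} (hμ : 1 ≤ μ)
    (ht : Tendsto (fun n : ℕ => ((walks n).card : ℝ) ^ (1 / (n : ℝ))) atTop (nhds μ))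
    {f g : Pt →+ ℝ} {e e' : Step} (he : 0 < g (vec e)) (he' : 0 < f (vec e')) (x : Pt) (n : ℕ) :
    ((upc f g e x n).card : ℝ) ≤ μ ^ (n + 1) := by
  have h1 : (upc f g e x n).card * (upc f g e x n).card ≤ (wbr f (2 * n + 1)).card := by
    rw [← card_product]
    refine card_le_card_of_injOn (fun p => p.1 ++ (e :: p.2.reverse)) ?_ ?_
    · rintro ⟨w, v⟩ h
      rw [mem_coe, mem_product] at h
      exact double_mem he h.1 h.2
    · rintro ⟨w, v⟩ h ⟨w', v'⟩ h' heq
      rw [mem_coe, mem_product, mem_upc, mem_upc] at h h'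
      simp only at heq
      obtain ⟨h1, h2⟩ := List.append_inj heq (h.1.1.trans h'.1.1.symm)
      have h3 := (List.cons.inj h2).2
      rw [h1, List.reverse_injective h3]
  have h2 : ((upc f g e x n).card : ℝ) * ((upc f g e x n).card : ℝ) ≤ μ ^ (2 * n + 1 + 1) := by
    refine le_trans ?_ (card_wbr ht he' (2 * n + 1))
    exact_mod_cast h1
  have h3 : μ ^ (2 * n + 1 + 1) = μ ^ (n + 1) * μ ^ (n + 1) := by
    rw [← pow_add]
    congr 1
    omega
  rw [h3] at h2
  exact abs_le_of_sq_le_sq' (by nlinarith) (by positivity) |>.2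

/-! ### Both endpoints exposed in given directions -/

/-- the box of radius `n` -/
noncomputable def bx (n : ℕ) : Finset Pt := Fintype.piFinset fun _ : Fin 3 => Finset.Icc (-(n : ℤ)) n

theorem mem_bx {n : ℕ} {x : Pt} : x ∈ bx n ↔ ∀ k, |x k| ≤ n := by
  unfold bx
  simp only [Fintype.mem_piFinset, Finset.mem_Icc, abs_le]

theorem card_bx (n : ℕ) : (bx n).card = (2 * n + 1) ^ 3 := by
  unfold bx
  rw [Fintype.card_piFinset]
  simp only [Int.card_Icc, Finset.prod_const, Finset.card_univ, Fintype.card_fin]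
  congr 1
  omega

theorem D_mem_bx {w : Word} {n : ℕ} (h : w.length ≤ n) : D w ∈ bx n := by
  rw [mem_bx]
  intro k
  refine (abs_D_le w k).trans ?_
  exact_mod_cast h

/-- start extreme in the direction `-f`, end extreme in the direction `g` -/
noncomputable def cls (f g : Pt →+ ℝ) (n : ℕ) : Finset Word :=
  (wd n).filter fun w => saw w ∧ LiR f w ∧ LoR g w

theorem mem_cls {f g : Pt →+ ℝ} {n : ℕ} {w : Word} :
    w ∈ cls f g n ↔ w.length = n ∧ saw w ∧ LiR f w ∧ LoR g w := by
  unfold cls; rw [mem_filter, mem_wd]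

theorem cls_split {f g : Pt →+ ℝ} (e : Step) {n : ℕ} {w : Word} (hw : w ∈ cls f g n) :
    w ∈ upc f g e (D w) n ∨ ∃ a b : Word, w = a ++ b ∧ a ∈ wbr f a.length ∧
      b ∈ upc (-f) g e (D b) b.length := by
  rw [mem_cls] at hw
  obtain ⟨h1, h2, h3, h4⟩ := hw
  by_cases hup : ∀ a u : Word, w = a ++ u → f (D a) ≤ 2 * f (D w) + f (vec e)
  · exact Or.inl (mem_upc.2 ⟨h1, h2, h3, h4, rfl, hup⟩)
  · right
    push Not at hup
    obtain ⟨a0, u0, h5, h6⟩ := hup
    obtain ⟨a, b, h7, ha, hb⟩ := exists_last_maxR f w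
    have hmax : f (D a0) ≤ f (D a) := by
      rw [h7] at h5
      rcases List.append_eq_append_iff.1 h5 with ⟨r, h8, h9⟩ | ⟨r, h8, h9⟩
      · have h10 := hb.toLi r u0 h9
        rw [AddMonoidHom.neg_apply] at h10
        rw [h8, D_append, map_add]
        linarith
      · have h10 := ha a0 r h8
        rw [h8, D_append, map_add]
        linarith
    have hx : f (D w) = f (D a) + f (D b) := by rw [h7, D_append, map_add]
    rw [h7] at h2 h3 h4
    refine ⟨a, b, h7, mem_wbr.2 ⟨rfl, h2.left, ha, h3.left⟩,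
      mem_upc.2 ⟨rfl, h2.right, hb.toLi, h4.right, rfl, ?_⟩⟩
    intro b' r hr
    have h8 : 0 ≤ f (D a) + f (D b') := by
      rw [← map_add, ← D_append]
      exact h3 (a ++ b') r (by rw [hr]; simp)
    simp only [AddMonoidHom.neg_apply]
    linarith

theorem card_cls {μ : ℝ} (hμ : 1 ≤ μ)
    (ht : Tendsto (fun n : ℕ => ((walks n).card : ℝ) ^ (1 / (n : ℝ))) atTop (nhds μ))
    {f g : Pt →+ ℝ} {e e1 e2 : Step} (he : 0 < g (vec e)) (he1 : 0 < f (vec e1))
    (he2 : f (vec e2) < 0) (n : ℕ) :
    ((cls f g n).card : ℝ) ≤ (n + 2) * (2 * n + 1) ^ 3 * μ ^ (n + 2) := by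
  have hsub : cls f g n ⊆ (bx n).biUnion (fun x => upc f g e x n) ∪
      (range (n + 1)).biUnion (fun m => (wbr f m ×ˢ (bx n).biUnion
        (fun y => upc (-f) g e y (n - m))).image fun p => p.1 ++ p.2) := by
    intro w hw
    have hlen := (mem_cls.1 hw).1
    rw [mem_union]
    rcases cls_split e hw with h | ⟨a, b, h1, h2, h3⟩
    · left
      rw [mem_biUnion]
      exact ⟨D w, D_mem_bx hlen.le, h⟩
    · right
      have h4 : a.length + b.length = n := by rw [← hlen, h1, List.length_append]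
      rw [mem_biUnion]
      refine ⟨a.length, by rw [mem_range]; omega, ?_⟩
      rw [mem_image]
      refine ⟨(a, b), ?_, h1.symm⟩
      rw [mem_product, mem_biUnion]
      refine ⟨h2, D b, D_mem_bx (by omega), ?_⟩
      have : n - a.length = b.length := by omega
      rw [this]
      exact h3
  have c1 : (((bx n).biUnion (fun x => upc f g e x n)).card : ℝ) ≤
      (2 * n + 1) ^ 3 * μ ^ (n + 1) := by
    calc (((bx n).biUnion (fun x => upc f g e x n)).card : ℝ)
        ≤ ((∑ x ∈ bx n, (upc f g e x n).card : ℕ) : ℝ) := by exact_mod_cast card_biUnion_le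
      _ = ∑ x ∈ bx n, ((upc f g e x n).card : ℝ) := by push_cast; rfl
      _ ≤ ∑ _x ∈ bx n, μ ^ (n + 1) := sum_le_sum fun x _ => card_upc hμ ht he he1 x n
      _ = _ := by rw [sum_const, card_bx, nsmul_eq_mul]; push_cast; ring
  have c2 : ∀ m ∈ range (n + 1), (((wbr f m ×ˢ (bx n).biUnion
      (fun y => upc (-f) g e y (n - m))).image fun p => p.1 ++ p.2).card : ℝ) ≤
      (2 * n + 1) ^ 3 * μ ^ (n + 2) := by
    intro m hm
    rw [mem_range] at hm
    have he2' : 0 < (-f) (vec e2) := by rw [AddMonoidHom.neg_apply]; linarith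
    have h1 : (((bx n).biUnion (fun y => upc (-f) g e y (n - m))).card : ℝ) ≤
        (2 * n + 1) ^ 3 * μ ^ (n - m + 1) := by
      calc (((bx n).biUnion (fun y => upc (-f) g e y (n - m))).card : ℝ)
          ≤ ((∑ y ∈ bx n, (upc (-f) g e y (n - m)).card : ℕ) : ℝ) := by
            exact_mod_cast card_biUnion_le
        _ = ∑ y ∈ bx n, ((upc (-f) g e y (n - m)).card : ℝ) := by push_cast; rfl
        _ ≤ ∑ _y ∈ bx n, μ ^ (n - m + 1) := sum_le_sum fun y _ => card_upc hμ ht he he2' y _
        _ = _ := by rw [sum_const, card_bx, nsmul_eq_mul]; push_cast; ring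
    have h2 := card_wbr ht he1 m
    calc (((wbr f m ×ˢ (bx n).biUnion
        (fun y => upc (-f) g e y (n - m))).image fun p => p.1 ++ p.2).card : ℝ)
        ≤ (((wbr f m) ×ˢ (bx n).biUnion (fun y => upc (-f) g e y (n - m))).card : ℝ) := by
          exact_mod_cast card_image_le
      _ = ((wbr f m).card : ℝ) *
          (((bx n).biUnion (fun y => upc (-f) g e y (n - m))).card : ℝ) := by
          rw [card_product]; push_cast; rfl
      _ ≤ μ ^ (m + 1) * ((2 * n + 1) ^ 3 * μ ^ (n - m + 1)) := by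
          gcongr
      _ = (2 * n + 1) ^ 3 * (μ ^ (m + 1) * μ ^ (n - m + 1)) := by ring
      _ = _ := by
          rw [← pow_add]
          congr 2
          omega
  calc ((cls f g n).card : ℝ) ≤ (((bx n).biUnion (fun x => upc f g e x n) ∪
      (range (n + 1)).biUnion (fun m => (wbr f m ×ˢ (bx n).biUnion
        (fun y => upc (-f) g e y (n - m))).image fun p => p.1 ++ p.2)).card : ℝ) := by
        exact_mod_cast card_le_card hsub
    _ ≤ (((bx n).biUnion (fun x => upc f g e x n)).card : ℝ) +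
      (((range (n + 1)).biUnion (fun m => (wbr f m ×ˢ (bx n).biUnion
        (fun y => upc (-f) g e y (n - m))).image fun p => p.1 ++ p.2)).card : ℝ) := by
        exact_mod_cast card_union_le _ _
    _ ≤ (2 * n + 1) ^ 3 * μ ^ (n + 1) + ∑ m ∈ range (n + 1), (((wbr f m ×ˢ (bx n).biUnion
        (fun y => upc (-f) g e y (n - m))).image fun p => p.1 ++ p.2).card : ℝ) := by
        gcongr
        exact_mod_cast card_biUnion_le
    _ ≤ (2 * n + 1) ^ 3 * μ ^ (n + 2) +
        ∑ _m ∈ range (n + 1), (2 * (n : ℝ) + 1) ^ 3 * μ ^ (n + 2) := by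
        refine add_le_add ?_ (sum_le_sum c2)
        exact mul_le_mul_of_nonneg_left (pow_le_pow_right₀ hμ (by omega)) (by positivity)
    _ = _ := by
        rw [sum_const, card_range, nsmul_eq_mul]
        push_cast
        ring

end Pool.Agent.ExpE
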