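import Pool.Agent.ExpE.Core

/-! Counting directions, walks with both endpoints on the boundary of the convex hull, walks cut
into such pieces. -/

namespace Pool.Agent.ExpE

open Finset Filter
open scoped Classical
open Pool.Agent.MP_794e6e_pr

/-- the functional of a vector -/
noncomputable def fl (φ : Fin 3 → ℝ) : Pt →+ ℝ where
  toFun x := ∑ i, φ i * (x i : ℝ)
  map_zero' := by simp
  map_add' x y := by
    rw [← sum_add_distrib]
    refine sum_congr rfl fun i _ => ?_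
    rw [Pi.add_apply]
    push_cast
    ring

theorem fl_apply (φ : Fin 3 → ℝ) (x : Pt) : fl φ x = ∑ i, φ i * (x i : ℝ) := rfl

theorem fl_vec (φ : Fin 3 → ℝ) (i : Fin 3) (b : Bool) :
    fl φ (vec (i, b)) = if b then φ i else - φ i := by
  rw [fl_apply, Finset.sum_eq_single i]
  · cases b <;> simp [vec]
  · intro j _ hj
    simp [vec, Pi.single_eq_of_ne hj]
  · intro h; exact absurd (mem_univ i) h

theorem exists_up {φ : Fin 3 → ℝ} (h : φ ≠ 0) : ∃ e : Step, 0 < fl φ (vec e) := by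
  obtain ⟨i, hi⟩ := Function.ne_iff.1 h
  rw [Pi.zero_apply] at hi
  rcases lt_or_gt_of_ne hi with h1 | h1
  · refine ⟨(i, false), ?_⟩
    rw [fl_vec]
    simpa using h1
  · refine ⟨(i, true), ?_⟩
    rw [fl_vec]
    simpa using h1

theorem exists_down {φ : Fin 3 → ℝ} (h : φ ≠ 0) : ∃ e : Step, fl φ (vec e) < 0 := by
  obtain ⟨i, hi⟩ := Function.ne_iff.1 h
  rw [Pi.zero_apply] at hi
  rcases lt_or_gt_of_ne hi with h1 | h1
  · refine ⟨(i, true), ?_⟩
    rw [fl_vec]
    simpa using h1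
  · refine ⟨(i, false), ?_⟩
    rw [fl_vec]
    simpa using h1

/-- the points of the box in the half-space of `φ` -/
noncomputable def pat (n : ℕ) (φ : Fin 3 → ℝ) : Finset (bx n) :=
  univ.filter fun x => 0 ≤ fl φ x.1

/-- all such sets -/
noncomputable def pats (n : ℕ) : Finset (Finset (bx n)) :=
  univ.filter fun P => ∃ φ : Fin 3 → ℝ, φ ≠ 0 ∧ pat n φ = P

theorem card_of_shatters {n : ℕ} {s : Finset (bx n)} (hs : (pats n).Shatters s) : s.card ≤ 3 := by
  by_contra hcon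
  push Not at hcon
  set ι : bx n → (Fin 3 → ℝ) := fun x i => (x.1 i : ℝ) with hι
  have hinj : Function.Injective ι := by
    intro x y hxy
    apply Subtype.ext
    funext i
    have := congrFun hxy i
    simp only [hι] at this
    exact_mod_cast this
  have hcard : (s.image ι).card = s.card := card_image_of_injective s hinj
  have hfr : Module.finrank ℝ (Fin 3 → ℝ) < (s.image ι).card := by
    rw [hcard, Module.finrank_fin_fun]; exact hcon
  obtain ⟨c, hc1, v, hv, hc2⟩ := Module.exists_nontrivial_relation_of_finrank_lt_card hfr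
  rw [sum_image (fun x _ y _ h => hinj h)] at hc1
  obtain ⟨x0, hx0, rfl⟩ := mem_image.1 hv
  have hrel : ∀ φ : Fin 3 → ℝ, ∑ x ∈ s, c (ι x) * fl φ x.1 = 0 := by
    intro φ
    have h1 : ∀ i, ∑ x ∈ s, c (ι x) * (x.1 i : ℝ) = 0 := by
      intro i
      have := congrFun hc1 i
      rw [Finset.sum_apply] at this
      simpa [hι] using this
    calc ∑ x ∈ s, c (ι x) * fl φ x.1 = ∑ x ∈ s, ∑ i, φ i * (c (ι x) * (x.1 i : ℝ)) := by
          refine sum_congr rfl fun x _ => ?_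
          rw [fl_apply, mul_sum]
          refine sum_congr rfl fun i _ => ?_
          ring
      _ = ∑ i, φ i * ∑ x ∈ s, c (ι x) * (x.1 i : ℝ) := by
          rw [sum_comm]
          refine sum_congr rfl fun i _ => ?_
          rw [mul_sum]
      _ = 0 := by simp [h1]
  obtain ⟨σ, hσ⟩ : ∃ σ : ℝ, 0 < σ * c (ι x0) := by
    rcases lt_or_gt_of_ne hc2 with h | h
    · exact ⟨-1, by linarith⟩
    · exact ⟨1, by linarith⟩
  obtain ⟨P, hP, hsP⟩ := hs (t := s.filter fun x => σ * c (ι x) < 0) (filter_subset _ _)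
  obtain ⟨φ, -, rfl⟩ := (mem_filter.1 hP).2
  have hiff : ∀ x ∈ s, 0 ≤ fl φ x.1 ↔ σ * c (ι x) < 0 := by
    intro x hx
    have h1 : x ∈ s ∩ pat n φ ↔ x ∈ s.filter fun x => σ * c (ι x) < 0 := by rw [hsP]
    rw [mem_inter, mem_filter] at h1
    have h2 : x ∈ pat n φ ↔ 0 ≤ fl φ x.1 := by
      unfold pat
      rw [mem_filter]
      exact ⟨fun h => h.2, fun h => ⟨mem_univ _, h⟩⟩
    rw [← h2]
    exact ⟨fun h => (h1.1 ⟨hx, h⟩).2, fun h => (h1.2 ⟨hx, h⟩).2⟩
  have hlt : ∑ x ∈ s, σ * c (ι x) * fl φ x.1 < 0 := by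
    have hle : ∀ x ∈ s, σ * c (ι x) * fl φ x.1 ≤ 0 := by
      intro x hx
      by_cases h : 0 ≤ fl φ x.1
      · exact mul_nonpos_of_nonpos_of_nonneg ((hiff x hx).1 h).le h
      · have h1 : 0 ≤ σ * c (ι x) := not_lt.1 (fun h2 => h ((hiff x hx).2 h2))
        exact mul_nonpos_of_nonneg_of_nonpos h1 (not_le.1 h).le
    refine (sum_lt_sum (g := fun _ => (0 : ℝ)) hle ⟨x0, hx0, ?_⟩).trans_eq (by simp)
    have h1 : ¬ 0 ≤ fl φ x0.1 := fun h => absurd ((hiff x0 hx0).1 h) (not_lt.2 hσ.le)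
    exact mul_neg_of_pos_of_neg hσ (not_le.1 h1)
  have h0 : ∑ x ∈ s, σ * c (ι x) * fl φ x.1 = 0 := by
    have := hrel φ
    calc ∑ x ∈ s, σ * c (ι x) * fl φ x.1 = σ * ∑ x ∈ s, c (ι x) * fl φ x.1 := by
          rw [mul_sum]
          exact sum_congr rfl fun x _ => by ring
      _ = 0 := by rw [this, mul_zero]
  linarith

theorem card_pats (n : ℕ) : (pats n).card ≤ ((2 * n + 1) ^ 3 + 1) ^ 3 := by
  have h1 : (pats n).vcDim ≤ 3 := by
    unfold Finset.vcDim
    refine Finset.sup_le fun s hs => ?_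
    exact card_of_shatters (mem_shatterer.1 hs)
  have h2 := (card_le_card_shatterer (pats n)).trans (card_shatterer_le_sum_vcDim (𝒜 := pats n))
  have h3 : Fintype.card (bx n) = (2 * n + 1) ^ 3 := by
    rw [Fintype.card_coe, card_bx]
  rw [h3] at h2
  set N := (2 * n + 1) ^ 3 with hN
  calc (pats n).card ≤ ∑ k ∈ Iic (pats n).vcDim, N.choose k := h2
    _ ≤ ∑ k ∈ Iic 3, N.choose k := by
        refine sum_le_sum_of_subset (fun k hk => ?_)
        rw [mem_Iic] at hk ⊢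
        omega
    _ ≤ ∑ k ∈ Iic 3, N ^ k := sum_le_sum fun k _ => Nat.choose_le_pow N k
    _ = 1 + N + N ^ 2 + N ^ 3 := by
        have : Iic 3 = range 4 := by ext k; simp [Nat.lt_succ_iff]
        rw [this]
        simp [sum_range_succ]
    _ ≤ (N + 1) ^ 3 := by nlinarith [Nat.zero_le N]

/-- both endpoints are on supporting hyperplanes -/
def Ex (w : Word) : Prop :=
  saw w ∧ (∃ φ : Fin 3 → ℝ, φ ≠ 0 ∧ LiR (fl φ) w) ∧ ∃ ψ : Fin 3 → ℝ, ψ ≠ 0 ∧ LoR (fl ψ) w

theorem pat_congr {n : ℕ} {φ ψ : Fin 3 → ℝ} (h : pat n φ = pat n ψ) {x : Pt} (hx : x ∈ bx n) :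
    0 ≤ fl φ x ↔ 0 ≤ fl ψ x := by
  have h1 : (⟨x, hx⟩ : bx n) ∈ pat n φ ↔ (⟨x, hx⟩ : bx n) ∈ pat n ψ := by rw [h]
  unfold pat at h1
  rw [mem_filter, mem_filter] at h1
  exact ⟨fun h => (h1.1 ⟨mem_univ _, h⟩).2, fun h => (h1.2 ⟨mem_univ _, h⟩).2⟩

theorem card_Ex {μ : ℝ} (hμ : 1 ≤ μ)
    (ht : Tendsto (fun n : ℕ => ((walks n).card : ℝ) ^ (1 / (n : ℝ))) atTop (nhds μ)) (n : ℕ) :
    (((wd n).filter Ex).card : ℝ) ≤ (16 * 8 ^ 6 * μ ^ 2) * ((n : ℝ) + 1) ^ 22 * μ ^ n := by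
  have hch : ∀ P : Finset (bx n), ∃ φ : Fin 3 → ℝ, P ∈ pats n → φ ≠ 0 ∧ pat n φ = P := by
    intro P
    by_cases h : P ∈ pats n
    · obtain ⟨φ, h1, h2⟩ := (mem_filter.1 h).2
      exact ⟨φ, fun _ => ⟨h1, h2⟩⟩
    · exact ⟨0, fun h' => absurd h' h⟩
  choose F hF using hch
  have hsub : (wd n).filter Ex ⊆ (pats n ×ˢ pats n).biUnion fun p =>
      cls (fl (F p.1)) (fl (F p.2)) n := by
    intro w hw
    rw [mem_filter, mem_wd] at hw
    obtain ⟨hlen, hs, ⟨φ, hφ, h1⟩, ψ, hψ, h2⟩ := hw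
    have m1 : pat n φ ∈ pats n := mem_filter.2 ⟨mem_univ _, φ, hφ, rfl⟩
    have m2 : pat n ψ ∈ pats n := mem_filter.2 ⟨mem_univ _, ψ, hψ, rfl⟩
    rw [mem_biUnion]
    refine ⟨(pat n φ, pat n ψ), mem_product.2 ⟨m1, m2⟩, mem_cls.2 ⟨hlen, hs, ?_, ?_⟩⟩
    · intro u b hub
      have hu : D u ∈ bx n := by
        refine D_mem_bx ?_
        rw [← hlen, hub, List.length_append]
        omega
      exact (pat_congr (hF _ m1).2 hu).2 (h1 u b hub)
    · intro a u hau
      have hu : D u ∈ bx n := by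
        refine D_mem_bx ?_
        rw [← hlen, hau, List.length_append]
        omega
      exact (pat_congr (hF _ m2).2 hu).2 (h2 a u hau)
  have hn : (0 : ℝ) ≤ n := Nat.cast_nonneg n
  have hpc : ((pats n).card : ℝ) ≤ (8 * ((n : ℝ) + 1) ^ 3) ^ 3 := by
    have h1 : ((pats n).card : ℝ) ≤ ((2 * (n : ℝ) + 1) ^ 3 + 1) ^ 3 := by
      exact_mod_cast card_pats n
    refine h1.trans (pow_le_pow_left₀ (by positivity) ?_ 3)
    nlinarith [mul_nonneg hn hn]
  have hcl : ∀ p ∈ pats n ×ˢ pats n, ((cls (fl (F p.1)) (fl (F p.2)) n).card : ℝ) ≤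
      16 * ((n : ℝ) + 1) ^ 4 * μ ^ (n + 2) := by
    intro p hp
    rw [mem_product] at hp
    have h1 := (hF _ hp.1).1
    have h2 := (hF _ hp.2).1
    obtain ⟨e, he⟩ := exists_up h2
    obtain ⟨e1, he1⟩ := exists_up h1
    obtain ⟨e2, he2⟩ := exists_down h1
    refine (card_cls hμ ht he he1 he2 n).trans ?_
    have h3 : ((n : ℝ) + 2) ≤ 2 * ((n : ℝ) + 1) := by linarith
    have h4 : (2 * (n : ℝ) + 1) ^ 3 ≤ (2 * ((n : ℝ) + 1)) ^ 3 :=
      pow_le_pow_left₀ (by positivity) (by linarith) 3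
    calc ((n : ℝ) + 2) * (2 * n + 1) ^ 3 * μ ^ (n + 2)
        ≤ (2 * ((n : ℝ) + 1)) * (2 * ((n : ℝ) + 1)) ^ 3 * μ ^ (n + 2) := by gcongr
      _ = _ := by ring
  calc (((wd n).filter Ex).card : ℝ)
      ≤ (((pats n ×ˢ pats n).biUnion fun p => cls (fl (F p.1)) (fl (F p.2)) n).card : ℝ) := by
        exact_mod_cast card_le_card hsub
    _ ≤ ((∑ p ∈ pats n ×ˢ pats n, (cls (fl (F p.1)) (fl (F p.2)) n).card : ℕ) : ℝ) := by
        exact_mod_cast card_biUnion_le
    _ = ∑ p ∈ pats n ×ˢ pats n, ((cls (fl (F p.1)) (fl (F p.2)) n).card : ℝ) := by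
        push_cast; rfl
    _ ≤ ∑ _p ∈ pats n ×ˢ pats n, 16 * ((n : ℝ) + 1) ^ 4 * μ ^ (n + 2) := sum_le_sum hcl
    _ = ((pats n).card : ℝ) * (pats n).card * (16 * ((n : ℝ) + 1) ^ 4 * μ ^ (n + 2)) := by
        rw [sum_const, card_product, nsmul_eq_mul]; push_cast; ring
    _ ≤ (8 * ((n : ℝ) + 1) ^ 3) ^ 3 * (8 * ((n : ℝ) + 1) ^ 3) ^ 3 *
        (16 * ((n : ℝ) + 1) ^ 4 * μ ^ (n + 2)) := by gcongr
    _ = _ := by ring

/-- concatenations of `k` pieces -/
def Exk : ℕ → Word → Prop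
  | 0, w => w = []
  | k + 1, w => ∃ a b : Word, w = a ++ b ∧ Ex a ∧ Exk k b

theorem card_Exk {μ : ℝ} (hμ : 1 ≤ μ)
    (ht : Tendsto (fun n : ℕ => ((walks n).card : ℝ) ^ (1 / (n : ℝ))) atTop (nhds μ)) (k : ℕ) :
    ∀ n : ℕ, (((wd n).filter (Exk k)).card : ℝ) ≤
      ((16 * 8 ^ 6 * μ ^ 2) * ((n : ℝ) + 1) ^ 23) ^ k * μ ^ n := by
  induction k with
  | zero =>
    intro n
    rw [pow_zero, one_mul]
    have h1 : ((wd n).filter (Exk 0)).card ≤ 1 := by
      rw [card_le_one]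
      intro a ha b hb
      rw [mem_filter] at ha hb
      rw [show a = [] from ha.2, show b = [] from hb.2]
    have h2 : (((wd n).filter (Exk 0)).card : ℝ) ≤ 1 := by exact_mod_cast h1
    exact h2.trans (one_le_pow₀ hμ)
  | succ k ih =>
    intro n
    set C : ℝ := 16 * 8 ^ 6 * μ ^ 2 with hC
    have hC0 : 0 ≤ C := by positivity
    have hsub : (wd n).filter (Exk (k + 1)) ⊆ (range (n + 1)).biUnion fun m =>
        (((wd m).filter Ex) ×ˢ ((wd (n - m)).filter (Exk k))).image fun p => p.1 ++ p.2 := by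
      intro w hw
      rw [mem_filter, mem_wd] at hw
      obtain ⟨hlen, a, b, h1, h2, h3⟩ := hw
      have h4 : a.length + b.length = n := by rw [← hlen, h1, List.length_append]
      rw [mem_biUnion]
      refine ⟨a.length, by rw [mem_range]; omega, ?_⟩
      rw [mem_image]
      refine ⟨(a, b), ?_, h1.symm⟩
      rw [mem_product, mem_filter, mem_filter, mem_wd, mem_wd]
      refine ⟨⟨rfl, h2⟩, ?_, h3⟩
      have : n - a.length = b.length := by omega
      rw [this]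
    have hm : ∀ m ∈ range (n + 1), ((((((wd m).filter Ex) ×ˢ
        ((wd (n - m)).filter (Exk k))).image fun p => p.1 ++ p.2).card : ℕ) : ℝ) ≤
        C * ((n : ℝ) + 1) ^ 22 * (C * ((n : ℝ) + 1) ^ 23) ^ k * μ ^ n := by
      intro m hm
      rw [mem_range] at hm
      have h1 := card_Ex hμ ht m
      have h2 := ih (n - m)
      have hmn : (m : ℝ) ≤ n := by exact_mod_cast Nat.lt_succ_iff.1 hm
      have hmn' : ((n - m : ℕ) : ℝ) ≤ n := by exact_mod_cast Nat.sub_le n m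
      calc ((((((wd m).filter Ex) ×ˢ
          ((wd (n - m)).filter (Exk k))).image fun p => p.1 ++ p.2).card : ℕ) : ℝ)
          ≤ ((((wd m).filter Ex) ×ˢ ((wd (n - m)).filter (Exk k))).card : ℝ) := by
            exact_mod_cast card_image_le
        _ = (((wd m).filter Ex).card : ℝ) * (((wd (n - m)).filter (Exk k)).card : ℝ) := by
            rw [card_product]; push_cast; rfl
        _ ≤ (C * ((m : ℝ) + 1) ^ 22 * μ ^ m) *
            ((C * (((n - m : ℕ) : ℝ) + 1) ^ 23) ^ k * μ ^ (n - m)) := by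
            gcongr
        _ ≤ (C * ((n : ℝ) + 1) ^ 22 * μ ^ m) * ((C * ((n : ℝ) + 1) ^ 23) ^ k * μ ^ (n - m)) := by
            gcongr
        _ = C * ((n : ℝ) + 1) ^ 22 * (C * ((n : ℝ) + 1) ^ 23) ^ k * (μ ^ m * μ ^ (n - m)) := by
            ring
        _ = _ := by
            rw [← pow_add]
            congr 2
            omega
    calc (((wd n).filter (Exk (k + 1))).card : ℝ)
        ≤ (((range (n + 1)).biUnion fun m => (((wd m).filter Ex) ×ˢ
          ((wd (n - m)).filter (Exk k))).image fun p => p.1 ++ p.2).card : ℝ) := by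
          exact_mod_cast card_le_card hsub
      _ ≤ ((∑ m ∈ range (n + 1), ((((wd m).filter Ex) ×ˢ
          ((wd (n - m)).filter (Exk k))).image fun p => p.1 ++ p.2).card : ℕ) : ℝ) := by
          exact_mod_cast card_biUnion_le
      _ = ∑ m ∈ range (n + 1), ((((((wd m).filter Ex) ×ˢ
          ((wd (n - m)).filter (Exk k))).image fun p => p.1 ++ p.2).card : ℕ) : ℝ) := by
          push_cast; rfl
      _ ≤ ∑ _m ∈ range (n + 1),
          C * ((n : ℝ) + 1) ^ 22 * (C * ((n : ℝ) + 1) ^ 23) ^ k * μ ^ n := sum_le_sum hm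
      _ = _ := by
          rw [sum_const, card_range, nsmul_eq_mul]
          push_cast
          ring

/-- cutting a word at given times -/
theorem Exk_of_cuts (w : Word) : ∀ (k : ℕ) (t : ℕ → ℕ), Monotone t → t k = w.length →
    (∀ i < k, Ex ((w.take (t (i + 1))).drop (t i))) → Exk k (w.drop (t 0)) := by
  intro k
  induction k with
  | zero =>
    intro t _ h1 _
    rw [h1]
    exact List.drop_length
  | succ k ih =>
    intro t hm h1 h2
    refine ⟨(w.take (t 1)).drop (t 0), w.drop (t 1), ?_, h2 0 (by omega), ?_⟩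
    · have h3 : t 0 ≤ t 1 := hm (by omega)
      have h4 : w.drop (t 0) = (w.take (t 1) ++ w.drop (t 1)).drop (t 0) := by
        rw [List.take_append_drop]
      have h5 : t 1 ≤ w.length := by rw [← h1]; exact hm (by omega)
      rw [h4, List.drop_append_of_le_length (by rw [List.length_take]; omega)]
    · exact ih (fun i => t (i + 1)) (fun i j hij => hm (by omega)) h1
        (fun i hi => h2 (i + 1) (by omega))

end Pool.Agent.ExpE
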