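import Pool.Agent.ExpE.Hull

/-! Supporting hyperplanes and paths. -/

namespace Pool.Agent.ExpE

open Filter
open scoped Classical
open Pool.Agent.MP_794e6e_pr

/-- the point of `ℝ³` of a lattice point -/
def pt (x : Fin 3 → ℤ) : Fin 3 → ℝ := fun i => (x i : ℝ)

theorem lin_eq_sum (f : (Fin 3 → ℝ) →ₗ[ℝ] ℝ) (x : Fin 3 → ℝ) :
    f x = ∑ i, f (Pi.single i 1) * x i := by
  have h1 : x = ∑ i, x i • (Pi.single i (1 : ℝ) : Fin 3 → ℝ) := by
    funext j
    rw [Finset.sum_apply]
    simp [Pi.single_apply]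
  conv_lhs => rw [h1]
  rw [map_sum]
  refine Finset.sum_congr rfl fun i _ => ?_
  rw [map_smul, smul_eq_mul]
  ring

theorem exists_support {X : Set (Fin 3 → ℝ)} {p : Fin 3 → ℝ} (hp : p ∈ X)
    (h : p ∈ frontier (convexHull ℝ X)) :
    ∃ φ : Fin 3 → ℝ, φ ≠ 0 ∧ ∀ x ∈ X, ∑ i, φ i * p i ≤ ∑ i, φ i * x i := by
  suffices hs : ∃ f : (Fin 3 → ℝ) →ₗ[ℝ] ℝ, f ≠ 0 ∧ ∀ x ∈ X, f p ≤ f x by
    obtain ⟨f, hf, h1⟩ := hs
    refine ⟨fun i => f (Pi.single i 1), ?_, ?_⟩
    · intro h0
      apply hf
      refine LinearMap.ext fun x => ?_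
      rw [lin_eq_sum f x]
      have : ∀ i, f (Pi.single i 1) = 0 := fun i => congrFun h0 i
      simp [this]
    · intro x hx
      rw [← lin_eq_sum f p, ← lin_eq_sum f x]
      exact h1 x hx
  by_cases hint : (interior (convexHull ℝ X)).Nonempty
  · have h1 : p ∉ interior (convexHull ℝ X) := by
      rw [frontier] at h
      exact h.2
    obtain ⟨f, u, hf0, h2, h3⟩ := geometric_hahn_banach_of_nonempty_interior
      (convex_convexHull ℝ X) (convex_singleton p) (Set.disjoint_singleton_right.2 h1) hint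
      (Set.singleton_nonempty p)
    refine ⟨-(f : (Fin 3 → ℝ) →ₗ[ℝ] ℝ), ?_, ?_⟩
    · intro h0
      apply hf0
      ext x
      have := LinearMap.congr_fun h0 x
      simpa using this
    · intro x hx
      have h4 := h2 x (subset_convexHull ℝ X hx)
      have h5 := h3 p rfl
      simp only [LinearMap.neg_apply, ContinuousLinearMap.coe_coe]
      linarith
  · rw [interior_convexHull_nonempty_iff_affineSpan_eq_top] at hint
    have hne : (affineSpan ℝ X : Set (Fin 3 → ℝ)).Nonempty := ⟨p, subset_affineSpan ℝ X hp⟩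
    have hd : vectorSpan ℝ X ≠ ⊤ := by
      intro h0
      apply hint
      rw [← AffineSubspace.direction_eq_top_iff_of_nonempty hne, direction_affineSpan, h0]
    obtain ⟨f, hf0, hf⟩ := Submodule.exists_le_ker_of_lt_top _ (lt_top_iff_ne_top.2 hd)
    refine ⟨f, hf0, fun x hx => ?_⟩
    have h1 : x -ᵥ p ∈ vectorSpan ℝ X := vsub_mem_vectorSpan ℝ hx hp
    have h2 := hf h1
    rw [LinearMap.mem_ker, vsub_eq_sub, map_sub] at h2
    linarith

/-- There are times `0 = t 0 ≤ t 1 ≤ … ≤ t k = n` that cut the walk into `k` pieces, such that the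
two endpoints of each piece lie on the boundary of the convex hull of the piece. -/
def Cut {n : ℕ} (k : ℕ) (ω : Fin (n + 1) → (Fin 3 → ℤ)) : Prop :=
  ∃ t : ℕ → Fin (n + 1), Monotone t ∧ t 0 = 0 ∧ t k = Fin.last n ∧ ∀ i < k,
    pt (ω (t i)) ∈ frontier (convexHull ℝ ((fun j => pt (ω j)) '' Set.Icc (t i) (t (i + 1)))) ∧
    pt (ω (t (i + 1))) ∈
      frontier (convexHull ℝ ((fun j => pt (ω j)) '' Set.Icc (t i) (t (i + 1))))

theorem Exk_of_Cut {n k : ℕ} {w : Word} (hw : w ∈ walks n) (h : Cut k (path n w)) : Exk k w := by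
  rw [mem_walks] at hw
  obtain ⟨hlen, hs⟩ := hw
  obtain ⟨t, hm, h0, hk, hp⟩ := h
  have key := Exk_of_cuts w k (fun i => (t i : ℕ)) (fun i j hij => hm hij) (by
    simp only [hk, Fin.val_last, hlen]) ?_
  · simp only [h0, Fin.val_zero] at key
    simpa using key
  intro i hi
  obtain ⟨h1, h2⟩ := hp i hi
  have hti : t i ≤ t (i + 1) := hm (by omega)
  have hti' : (t i : ℕ) ≤ t (i + 1) := hti
  have htn : (t (i + 1) : ℕ) ≤ n := Nat.lt_succ_iff.1 (t (i + 1)).2
  obtain ⟨φ, hφ, h3⟩ := exists_support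
    (X := (fun j => pt (path n w j)) '' Set.Icc (t i) (t (i + 1)))
    (Set.mem_image_of_mem _ (Set.left_mem_Icc.2 hti)) h1
  obtain ⟨ψ, hψ, h4⟩ := exists_support
    (X := (fun j => pt (path n w j)) '' Set.Icc (t i) (t (i + 1)))
    (Set.mem_image_of_mem _ (Set.right_mem_Icc.2 hti)) h2
  set z := (w.take (t (i + 1))).drop (t i) with hz
  have hwz : w = w.take (t i) ++ (z ++ w.drop (t (i + 1))) := by
    rw [← List.append_assoc]
    have h5 : w.take (t i) ++ z = w.take (t (i + 1)) := by
      have h6 : (w.take (t (i + 1))).take (t i) = w.take (t i) := by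
        rw [List.take_take, min_eq_left hti']
      rw [← h6, hz, List.take_append_drop]
    rw [h5, List.take_append_drop]
  have hzl : z.length = t (i + 1) - t i := by
    rw [hz, List.length_drop, List.length_take]
    omega
  have hpos : ∀ u b : Word, z = u ++ b → D (w.take (t i + u.length)) = D (w.take (t i)) + D u ∧
      t i + u.length ≤ t (i + 1) := by
    intro u b hub
    have h5 : u.length + b.length = t (i + 1) - t i := by rw [← hzl, hub, List.length_append]
    refine ⟨?_, by omega⟩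
    rw [← D_append]
    congr 1
    have h6 : w = (w.take (t i) ++ u) ++ (b ++ w.drop (t (i + 1))) := by
      rw [List.append_assoc, ← List.append_assoc u, ← hub]
      exact hwz
    have h7 : (w.take (t i) ++ u).length = t i + u.length := by
      rw [List.length_append, List.length_take]
      omega
    have h8 := take_left_append (w.take (t i) ++ u) (b ++ w.drop (t (i + 1)))
    rw [← h6, h7] at h8
    exact h8
  have hfl : ∀ (χ : Fin 3 → ℝ) (x : Pt), ∑ i, χ i * pt x i = fl χ x := fun χ x => rfl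
  refine ⟨?_, ⟨φ, hφ, ?_⟩, ⟨-ψ, neg_ne_zero.2 hψ, ?_⟩⟩
  · rw [hwz] at hs
    exact hs.right.left
  · intro u b hub
    obtain ⟨h5, h6⟩ := hpos u b hub
    have h7 := h3 (pt (path n w ⟨t i + u.length, by omega⟩))
      ⟨⟨t i + u.length, by omega⟩, ⟨by rw [Fin.le_def]; simp, by rw [Fin.le_def]; exact h6⟩, rfl⟩
    rw [hfl, hfl] at h7
    simp only [path] at h7
    rw [h5, map_add] at h7
    linarith
  · intro a u hau
    obtain ⟨h5, h6⟩ := hpos a u hau
    have h8 : D (w.take (t (i + 1))) = D (w.take (t i)) + D z := by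
      obtain ⟨h9, _⟩ := hpos z [] (by simp)
      rw [← h9]
      congr 2
      omega
    have h7 := h4 (pt (path n w ⟨t i + a.length, by omega⟩))
      ⟨⟨t i + a.length, by omega⟩, ⟨by rw [Fin.le_def]; simp, by rw [Fin.le_def]; exact h6⟩, rfl⟩
    rw [hfl, hfl] at h7
    simp only [path] at h7
    rw [h5, h8, hau, D_append, map_add, map_add, map_add] at h7
    have h10 : fl (-ψ) (D u) = - fl ψ (D u) := by
      rw [fl_apply, fl_apply, ← Finset.sum_neg_distrib]
      refine Finset.sum_congr rfl fun i _ => ?_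
      rw [Pi.neg_apply]; ring
    rw [h10]
    linarith

end Pool.Agent.ExpE
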